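import Pool.Agent.Lib.MP_848d44_nt.SV.FinU

set_option autoImplicit false

/-!
# MP_848d44_nt: a lower bound for the variance of primes in the residue classes modulo `q`,
for almost all moduli `q ≥ x^{1/2+ε}`, with an explicit constant
-/

namespace Pool.Agent.Results.MP_848d44_nt.AlmostAllVariance

/-- For all large `x`, all but at most `x^{1/2-δ}` of the integers `q ∈ [x^{1/2+ε}, x]` satisfy
`∑_{(a,q)=1} (ψ(x,q,a) - Y)² ≥ (1/2 - ε) x log(q²/x)` for every real `Y`. -/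
theorem result :
    ∀ ε : ℝ, 0 < ε → ∃ δ : ℝ, 0 < δ ∧ ∃ x₀ : ℝ, ∀ x : ℝ, x₀ ≤ x →
      (Set.ncard {q : ℕ | x ^ ((1 : ℝ) / 2 + ε) ≤ (q : ℝ) ∧ (q : ℝ) ≤ x ∧ ∃ Y : ℝ,
        ∑ a ∈ Finset.filter (fun a => Nat.Coprime a q) (Finset.range q),
          ((∑ n ∈ Finset.filter (fun n => n % q = a) (Finset.Icc 1 ⌊x⌋₊),
            ArithmeticFunction.vonMangoldt n) - Y) ^ 2 <
          (1 / 2 - ε) * x * Real.log ((q : ℝ) ^ 2 / x)} : ℝ) ≤ x ^ ((1 : ℝ) / 2 - δ) := by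
  intro ε hε
  exact Pool.Agent.M848.SV.real2 ε hε

end Pool.Agent.Results.MP_848d44_nt.AlmostAllVariance
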