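import Pool.Agent.Lib.MP_848d44_nt_EM.Main

/-!
# MP_848d44_nt, Q1, partial: omega result for every modulus

For every modulus `q ≥ 3` and every `X ≥ max(q, X₀(ε))` there is a real `x` in `[X, q X^{1+ε}]` at
which the variance of the primes in the residue classes mod `q` is at least `x^{1-ε}`.
-/

set_option autoImplicit false

namespace Pool.Agent.Results.MP_848d44_nt.EveryModulus

/-- For every `ε > 0`, all integers `q ≥ 3` and all real `X ≥ max(q, X₀)` there is a real `x` with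
`X ≤ x ≤ q X^{1+ε}` such that `∑_{(a,q)=1} (ψ(x,q,a) - Y)² ≥ x^{1-ε}` for every real `Y`, and for
every real `Y` some coprime class has `φ(q) (ψ(x,q,a) - Y)² ≥ x^{1-ε}`. -/
theorem result :
    ∀ ε : ℝ, 0 < ε → ∃ X₀ : ℝ, ∀ q : ℕ, 3 ≤ q → ∀ X : ℝ, X₀ ≤ X → (q : ℝ) ≤ X →
      ∃ x : ℝ, X ≤ x ∧ x ≤ q * X ^ (1 + ε) ∧ ∀ Y : ℝ,
        (x ^ (1 - ε) ≤
          ∑ a ∈ Finset.filter (fun a => Nat.Coprime a q) (Finset.range q),
            ((∑ n ∈ Finset.filter (fun n => n % q = a) (Finset.Icc 1 ⌊x⌋₊),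
              ArithmeticFunction.vonMangoldt n) - Y) ^ 2) ∧
        ∃ a : ℕ, a < q ∧ Nat.Coprime a q ∧
          x ^ (1 - ε) ≤ (Nat.totient q : ℝ) *
            ((∑ n ∈ Finset.filter (fun n => n % q = a) (Finset.Icc 1 ⌊x⌋₊),
              ArithmeticFunction.vonMangoldt n) - Y) ^ 2 := by
  intro ε hε
  obtain ⟨X₀, h⟩ := Pool.Agent.EM.em_main ε hε
  refine ⟨X₀, fun q hq X hX hqX => ?_⟩
  obtain ⟨x, hx1, hx2, hx3⟩ := h q hq X hX hqX
  refine ⟨x, hx1, hx2, fun Y => ?_⟩
  have h1 := hx3 Y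
  refine ⟨h1, ?_⟩
  set L : ℝ := x ^ (1 - ε) with hL
  have hφ : (0 : ℝ) < q.totient := by exact_mod_cast Nat.totient_pos.2 (by omega)
  have hcard : ((Finset.filter (fun a => Nat.Coprime a q) (Finset.range q)).card : ℝ) =
      q.totient := by
    rw [Nat.totient_eq_card_coprime]
    congr 2
    ext a
    simp [Nat.coprime_comm]
  have hne : (Finset.filter (fun a => Nat.Coprime a q) (Finset.range q)).Nonempty := by
    rw [← Finset.card_pos]
    have : (0 : ℝ) < (Finset.filter (fun a => Nat.Coprime a q) (Finset.range q)).card := by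
      rw [hcard]; exact hφ
    exact_mod_cast this
  have h2 : ∑ a ∈ Finset.filter (fun a => Nat.Coprime a q) (Finset.range q), L / q.totient ≤
      Pool.Agent.EM.vari x q Y := by
    rw [Finset.sum_const, nsmul_eq_mul, hcard, mul_div_cancel₀ _ hφ.ne']
    exact h1
  obtain ⟨a, ha, h3⟩ := Finset.exists_le_of_sum_le hne h2
  have ha' := Finset.mem_filter.1 ha
  refine ⟨a, Finset.mem_range.1 ha'.1, ha'.2, ?_⟩
  rw [div_le_iff₀ hφ] at h3
  rw [mul_comm (q.totient : ℝ)]
  exact h3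

end Pool.Agent.Results.MP_848d44_nt.EveryModulus
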