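import Pool.Agent.Lib.MP_848d44_nt.F.Last

/-!
# Primes in a fixed residue class `a` modulo `q`, on average over the moduli `q` of a short
interval: the sum of the squares of `ψ(x; q, a) - x / φ(q)` over `Q < q ≤ Q + H`, `(q, a) = 1`,
is at least `c (φ(|a|)/|a|)² (H/Q) x log x`, for `x^(5/6+ε) ≤ Q ≤ x / log x`,
`Q x^(-δ) ≤ H ≤ Q`, uniformly in `0 < |a| ≤ x^δ`.
-/

set_option autoImplicit false

namespace Pool.Agent.Results.MP_848d44_nt.FixedClass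

theorem result :
    ∀ ε : ℝ, 0 < ε → ∃ c : ℝ, 0 < c ∧ ∃ δ : ℝ, 0 < δ ∧ ∃ x₀ : ℝ, ∀ x : ℝ, x₀ ≤ x →
      ∀ a : ℤ, a ≠ 0 → (a.natAbs : ℝ) ≤ x ^ δ →
      ∀ Q H : ℕ, x ^ ((5 : ℝ) / 6 + ε) ≤ (Q : ℝ) → (Q : ℝ) ≤ x / Real.log x →
        (Q : ℝ) * x ^ (-δ) ≤ (H : ℝ) → H ≤ Q →
        c * ((a.natAbs.totient : ℝ) / a.natAbs) ^ 2 * ((H : ℝ) / Q) * (x * Real.log x) ≤
          ∑ q ∈ Finset.filter (fun q : ℕ => IsCoprime (q : ℤ) a) (Finset.Ioc Q (Q + H)),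
            ((∑ n ∈ Finset.filter (fun n : ℕ => (q : ℤ) ∣ (n : ℤ) - a) (Finset.Icc 1 ⌊x⌋₊),
              ArithmeticFunction.vonMangoldt n) - x / (q.totient : ℝ)) ^ 2 := by
  intro ε hε
  exact Pool.Agent.M848.FC.main_F ε hε

end Pool.Agent.Results.MP_848d44_nt.FixedClass
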