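import Pool.Agent.Lib.MP_848d44_nt.SV.FinN

set_option autoImplicit false

/-!
# MP_848d44_nt: a lower bound for the variance of primes in the residue classes modulo `q`,
for every single modulus `q ≤ x`
-/

namespace Pool.Agent.Results.MP_848d44_nt.FullRangeVariance

/-- For all large `x`, every `q ≤ x` and every real `Y`, the variance
`∑_{(a,q)=1} (ψ(x,q,a) - Y)²` is at least `((3/2) log q - (1+ε) log x) x`; in particular some
coprime class has `φ(q) (ψ(x,q,a) - Y)²` at least that large. -/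
theorem result :
    ∀ ε : ℝ, 0 < ε → ∃ x₀ : ℝ, ∀ x : ℝ, x₀ ≤ x →
      ∀ q : ℕ, 1 ≤ q → (q : ℝ) ≤ x → ∀ Y : ℝ,
        (x * (3 / 2 * Real.log q - (1 + ε) * Real.log x) ≤
          ∑ a ∈ Finset.filter (fun a => Nat.Coprime a q) (Finset.range q),
            ((∑ n ∈ Finset.filter (fun n => n % q = a) (Finset.Icc 1 ⌊x⌋₊),
              ArithmeticFunction.vonMangoldt n) - Y) ^ 2) ∧
        ∃ a : ℕ, a < q ∧ Nat.Coprime a q ∧
          x * (3 / 2 * Real.log q - (1 + ε) * Real.log x) ≤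
            (Nat.totient q : ℝ) *
              ((∑ n ∈ Finset.filter (fun n => n % q = a) (Finset.Icc 1 ⌊x⌋₊),
                ArithmeticFunction.vonMangoldt n) - Y) ^ 2 := by
  intro ε hε
  obtain ⟨x₀, h⟩ := Pool.Agent.M848.SV.real_thm2 ε hε
  refine ⟨x₀, fun x hx q hq hqx Y => ?_⟩
  have h1 := h x hx q hq hqx Y
  refine ⟨h1, ?_⟩
  set L : ℝ := x * (3 / 2 * Real.log q - (1 + ε) * Real.log x) with hL
  have hφ : (0 : ℝ) < q.totient := by exact_mod_cast Nat.totient_pos.2 hq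
  have hcard : ((Pool.Agent.M848.SV.Co q).card : ℝ) = q.totient := by
    rw [Pool.Agent.M848.SV.Co_card q hq]
  have hne : (Pool.Agent.M848.SV.Co q).Nonempty := by
    rw [← Finset.card_pos]
    have : (0 : ℝ) < (Pool.Agent.M848.SV.Co q).card := by rw [hcard]; exact hφ
    exact_mod_cast this
  have h2 : ∑ a ∈ Pool.Agent.M848.SV.Co q, L / q.totient ≤ Pool.Agent.M848.SV.VV ⌊x⌋₊ q Y := by
    rw [Finset.sum_const, nsmul_eq_mul, hcard, mul_div_cancel₀ _ hφ.ne']
    exact h1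
  obtain ⟨a, ha, h3⟩ := Finset.exists_le_of_sum_le hne h2
  have ha' := Finset.mem_filter.1 ha
  refine ⟨a, Finset.mem_range.1 ha'.1, ha'.2, ?_⟩
  rw [div_le_iff₀ hφ] at h3
  rw [mul_comm (q.totient : ℝ)]
  exact h3

end Pool.Agent.Results.MP_848d44_nt.FullRangeVariance
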